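import Pool.Agent.Lib_helper11.TD.Lin

/-!
# TD8: products of two reflections of finite order over the `p`-adic numbers
-/

set_option autoImplicit false

namespace Pool.Agent.TD

/-- The Lucas sequence `U_0 = 0`, `U_1 = 1`, `U_{n+2} = s U_{n+1} - U_n`. -/
def td8_U {R : Type*} [Ring R] (s : R) : ℕ → R
  | 0 => 0
  | 1 => 1
  | (n + 2) => s * td8_U s (n + 1) - td8_U s n

lemma td8_choose (n k : ℕ) :
    (((n + 2 + (k + 1)).choose (2 * (k + 1) + 1) : ℕ) : ℤ) =
      2 * ((n + 1 + (k + 1)).choose (2 * (k + 1) + 1) : ℕ) -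
        ((n + (k + 1)).choose (2 * (k + 1) + 1) : ℕ) +
        ((n + 1 + k).choose (2 * k + 1) : ℕ) := by
  have h1 : (n + 2 + (k + 1)).choose (2 * (k + 1) + 1) =
      (n + 1 + (k + 1)).choose (2 * (k + 1)) + (n + 1 + (k + 1)).choose (2 * (k + 1) + 1) := by
    have : n + 2 + (k + 1) = (n + 1 + (k + 1)) + 1 := by ring
    rw [this, Nat.choose_succ_succ']
  have h2 : (n + 1 + (k + 1)).choose (2 * (k + 1) + 1) =
      (n + (k + 1)).choose (2 * (k + 1)) + (n + (k + 1)).choose (2 * (k + 1) + 1) := by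
    have : n + 1 + (k + 1) = (n + (k + 1)) + 1 := by ring
    rw [this, Nat.choose_succ_succ']
  have h3 : (n + 1 + (k + 1)).choose (2 * (k + 1)) =
      (n + 1 + k).choose (2 * k + 1) + (n + (k + 1)).choose (2 * (k + 1)) := by
    have e1 : n + 1 + (k + 1) = (n + 1 + k) + 1 := by ring
    have e2 : 2 * (k + 1) = (2 * k + 1) + 1 := by ring
    have e3 : n + (k + 1) = n + 1 + k := by ring
    rw [e1, e2, Nat.choose_succ_succ', e3]
  omega

/-- The closed formula. -/
lemma td8_formula {R : Type*} [CommRing R] (y : R) : ∀ n N : ℕ, n ≤ N →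
    td8_U (2 + y) n = ∑ k ∈ Finset.range N, ((n + k).choose (2 * k + 1) : R) * y ^ k := by
  intro n
  induction n using Nat.strong_induction_on with
  | _ n ih =>
    intro N hN
    match n, ih, hN with
    | 0, _, _ =>
      rw [td8_U]
      symm
      refine Finset.sum_eq_zero fun k _ => ?_
      rw [Nat.choose_eq_zero_of_lt (by omega)]
      simp
    | 1, _, hN =>
      rw [td8_U]
      obtain ⟨N', rfl⟩ : ∃ N', N = N' + 1 := ⟨N - 1, by omega⟩
      rw [Finset.sum_range_succ']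
      rw [Finset.sum_eq_zero]
      · simp
      · intro k _
        rw [Nat.choose_eq_zero_of_lt (by omega)]
        simp
    | (n + 2), ih, hN =>
      rw [td8_U, ih (n + 1) (by omega) N (by omega), ih n (by omega) N (by omega)]
      obtain ⟨N', rfl⟩ : ∃ N', N = N' + 1 := ⟨N - 1, by omega⟩
      have hlast : y * ∑ k ∈ Finset.range (N' + 1), ((n + 1 + k).choose (2 * k + 1) : R) * y ^ k =
          ∑ k ∈ Finset.range N', ((n + 1 + k).choose (2 * k + 1) : R) * y ^ (k + 1) := by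
        rw [Finset.sum_range_succ, Nat.choose_eq_zero_of_lt (by omega)]
        simp only [Nat.cast_zero, zero_mul, add_zero, Finset.mul_sum]
        refine Finset.sum_congr rfl fun k _ => ?_
        ring
      rw [add_mul, hlast, Finset.sum_range_succ', Finset.sum_range_succ', Finset.sum_range_succ']
      have hterm : ∑ k ∈ Finset.range N',
          ((n + 2 + (k + 1)).choose (2 * (k + 1) + 1) : R) * y ^ (k + 1) =
          2 * ∑ k ∈ Finset.range N',
            ((n + 1 + (k + 1)).choose (2 * (k + 1) + 1) : R) * y ^ (k + 1) -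
          ∑ k ∈ Finset.range N', ((n + (k + 1)).choose (2 * (k + 1) + 1) : R) * y ^ (k + 1) +
          ∑ k ∈ Finset.range N', ((n + 1 + k).choose (2 * k + 1) : R) * y ^ (k + 1) := by
        rw [Finset.mul_sum, ← Finset.sum_sub_distrib, ← Finset.sum_add_distrib]
        refine Finset.sum_congr rfl fun k _ => ?_
        have h := congrArg (Int.cast : ℤ → R) (td8_choose n k)
        push_cast at h
        rw [h]
        ring
      rw [hterm]
      simp only [Nat.mul_zero, Nat.zero_add, Nat.choose_one_right, pow_zero, mul_one, add_zero]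
      push_cast
      ring

section padic

variable {p : ℕ} [hp : Fact p.Prime]

lemma td8_val {k : ℕ} (hk : 1 ≤ k) : padicValNat p (2 * k + 1).factorial < 2 * k := by
  rcases hp.out.eq_two_or_odd' with h2 | h2
  · subst h2
    rw [Nat.factorial_succ, padicValNat.mul (by omega) (Nat.factorial_ne_zero _),
      padicValNat.eq_zero_of_not_dvd (by omega), zero_add]
    exact padicValNat_factorial_lt_of_ne_zero 2 (by omega)
  · have h3 : 3 ≤ p := by
      have := hp.out.two_le
      obtain ⟨m, hm⟩ := h2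
      omega
    have h4 := sub_one_mul_padicValNat_factorial_lt_of_ne_zero p (n := 2 * k + 1) (by omega)
    have h5 : 2 * padicValNat p (2 * k + 1).factorial ≤
        (p - 1) * padicValNat p (2 * k + 1).factorial := Nat.mul_le_mul_right _ (by omega)
    omega

lemma td8_fact {k : ℕ} (hk : 1 ≤ k) :
    (p : ℝ) ^ (-(2 * k : ℕ) : ℤ) < ‖(((2 * k + 1).factorial : ℕ) : ℚ_[p])‖ := by
  rw [← not_le]
  intro h
  have h1 := (Padic.norm_int_le_pow_iff_dvd (p := p) (((2 * k + 1).factorial : ℕ) : ℤ) (2 * k)).1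
    (by simpa using h)
  have h2 : p ^ (2 * k) ∣ (2 * k + 1).factorial := by exact_mod_cast h1
  have h3 := (padicValNat_dvd_iff_le (Nat.factorial_ne_zero _)).1 h2
  have := td8_val (p := p) hk
  omega

lemma td8_dvd (n k : ℕ) : n ∣ (2 * k + 1).factorial * (n + k).choose (2 * k + 1) := by
  rw [← Nat.descFactorial_eq_factorial_mul_choose]
  have h1 : ∀ j, n ∣ (n + k).descFactorial (k + 1 + j) := by
    intro j
    induction j with
    | zero =>
      rw [add_zero, Nat.descFactorial_succ]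
      have : n + k - k = n := by omega
      rw [this]
      exact dvd_mul_right _ _
    | succ j ih =>
      rw [← add_assoc, Nat.descFactorial_succ]
      exact ih.mul_left _
  have h2 := h1 k
  have : k + 1 + k = 2 * k + 1 := by ring
  rwa [this] at h2

/-- Each term after the first is smaller than the first. -/
lemma td8_term {n : ℕ} (hn : 1 ≤ n) {k : ℕ} (hk : 1 ≤ k) {y : ℚ_[p]}
    (hy : ‖y‖ ≤ (p : ℝ) ^ (-2 : ℤ)) :
    ‖((n + k).choose (2 * k + 1) : ℚ_[p]) * y ^ k‖ < ‖(n : ℚ_[p])‖ := by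
  have hp0 : (0 : ℝ) < p := by exact_mod_cast hp.out.pos
  have hn0 : 0 < ‖(n : ℚ_[p])‖ := by
    rw [norm_pos_iff]
    exact_mod_cast (by omega : n ≠ 0)
  have hF : 0 < ‖(((2 * k + 1).factorial : ℕ) : ℚ_[p])‖ := by
    rw [norm_pos_iff]
    exact_mod_cast Nat.factorial_ne_zero _
  have hyk : ‖y ^ k‖ ≤ (p : ℝ) ^ (-(2 * k : ℕ) : ℤ) := by
    rw [norm_pow]
    calc ‖y‖ ^ k ≤ ((p : ℝ) ^ (-2 : ℤ)) ^ k := pow_le_pow_left₀ (norm_nonneg _) hy k
      _ = (p : ℝ) ^ (-(2 * k : ℕ) : ℤ) := by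
          rw [← zpow_natCast, ← zpow_mul]
          have : (-2 : ℤ) * (k : ℤ) = -((2 * k : ℕ) : ℤ) := by push_cast; ring
          rw [this]
  obtain ⟨q, hq⟩ := td8_dvd n k
  have h1 : ‖(((2 * k + 1).factorial : ℕ) : ℚ_[p])‖ *
      ‖((n + k).choose (2 * k + 1) : ℚ_[p])‖ ≤ ‖(n : ℚ_[p])‖ := by
    rw [← norm_mul]
    have h2 : (((2 * k + 1).factorial : ℕ) : ℚ_[p]) * ((n + k).choose (2 * k + 1) : ℚ_[p]) =
        (n : ℚ_[p]) * (q : ℚ_[p]) := by exact_mod_cast hq
    rw [h2, norm_mul]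
    have h3 : ‖(q : ℚ_[p])‖ ≤ 1 := by
      have := Padic.norm_int_le_one (p := p) (q : ℤ)
      simpa using this
    exact mul_le_of_le_one_right hn0.le h3
  have h4 : ‖(((2 * k + 1).factorial : ℕ) : ℚ_[p])‖ *
      ‖((n + k).choose (2 * k + 1) : ℚ_[p]) * y ^ k‖ <
      ‖(((2 * k + 1).factorial : ℕ) : ℚ_[p])‖ * ‖(n : ℚ_[p])‖ := by
    rw [norm_mul, ← mul_assoc]
    calc ‖(((2 * k + 1).factorial : ℕ) : ℚ_[p])‖ * ‖((n + k).choose (2 * k + 1) : ℚ_[p])‖ *
          ‖y ^ k‖ ≤ ‖(n : ℚ_[p])‖ * (p : ℝ) ^ (-(2 * k : ℕ) : ℤ) :=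
          mul_le_mul h1 hyk (norm_nonneg _) hn0.le
      _ < ‖(n : ℚ_[p])‖ * ‖(((2 * k + 1).factorial : ℕ) : ℚ_[p])‖ :=
          mul_lt_mul_of_pos_left (td8_fact hk) hn0
      _ = _ := mul_comm _ _
  exact lt_of_mul_lt_mul_left h4 hF.le

/-- `U_n(2 + y) ≠ 0` for small `y`. -/
lemma td8_ne {n : ℕ} (hn : 1 ≤ n) {y : ℚ_[p]} (hy : ‖y‖ ≤ (p : ℝ) ^ (-2 : ℤ)) :
    td8_U (2 + y) n ≠ 0 := by
  intro h0
  obtain ⟨N, rfl⟩ : ∃ N, n = N + 1 := ⟨n - 1, by omega⟩
  rw [td8_formula y (N + 1) (N + 1) le_rfl, Finset.sum_range_succ'] at h0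
  simp only [Nat.mul_zero, Nat.zero_add, Nat.choose_one_right, pow_zero, mul_one, add_zero] at h0
  have hn0 : 0 < ‖((N + 1 : ℕ) : ℚ_[p])‖ := by
    rw [norm_pos_iff]
    exact_mod_cast (by omega : N + 1 ≠ 0)
  have h1 : ‖∑ k ∈ Finset.range N,
      ((N + 1 + (k + 1)).choose (2 * (k + 1) + 1) : ℚ_[p]) * y ^ (k + 1)‖ <
      ‖((N + 1 : ℕ) : ℚ_[p])‖ := by
    refine Finset.sum_induction _ (fun z : ℚ_[p] => ‖z‖ < ‖((N + 1 : ℕ) : ℚ_[p])‖) ?_ ?_ ?_
    · intro a b ha hb
      exact (Padic.nonarchimedean a b).trans_lt (max_lt ha hb)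
    · simpa using hn0
    · intro k _
      exact td8_term hn (by omega) hy
  have h2 := eq_neg_of_add_eq_zero_left h0
  rw [h2, norm_neg] at h1
  exact lt_irrefl _ h1

lemma td8_two : ¬ ‖(2 : ℚ_[p])‖ ≤ (p : ℝ) ^ (-2 : ℤ) := by
  intro h
  have h1 := (Padic.norm_int_le_pow_iff_dvd (p := p) (2 : ℤ) 2).1 (by exact_mod_cast h)
  have h2 : p ^ 2 ∣ 2 := by exact_mod_cast h1
  have h3 := Nat.le_of_dvd (by norm_num) h2
  have h4 := hp.out.two_le
  nlinarith

lemma td8_lt {x : ℚ_[p]} (hx : ‖x‖ < 1) : ‖x‖ ≤ (p : ℝ)⁻¹ := by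
  have h := (Padic.norm_le_pow_iff_norm_lt_pow_add_one x (-1)).2 (by simpa using hx)
  simpa using h

lemma td8_sq {x y : ℚ_[p]} (hx : ‖x‖ < 1) (hy : ‖y‖ < 1) : ‖x * y‖ ≤ (p : ℝ) ^ (-2 : ℤ) := by
  have h1 := td8_lt hx
  have h2 := td8_lt hy
  have hp0 : (0 : ℝ) ≤ (p : ℝ)⁻¹ := by positivity
  rw [norm_mul]
  calc ‖x‖ * ‖y‖ ≤ (p : ℝ)⁻¹ * (p : ℝ)⁻¹ := mul_le_mul h1 h2 (norm_nonneg _) hp0
    _ = (p : ℝ) ^ (-2 : ℤ) := by
        rw [zpow_neg, ← mul_inv]
        congr 1
        norm_cast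
        ring

lemma td8_int (m : ℤ) : ‖(m : ℚ_[p])‖ ≤ 1 := Padic.norm_int_le_one m

variable {V : Type*} [AddCommGroup V] [Module ℚ_[p] V]

lemma td8_seq (s : ℚ_[p]) (x : ℕ → V) (hx : ∀ j, x (j + 2) = s • x (j + 1) - x j) :
    ∀ j, x (j + 1) = td8_U s (j + 1) • x 1 - td8_U s j • x 0 := by
  intro j
  induction j using Nat.strong_induction_on with
  | _ j ih =>
    match j, ih with
    | 0, _ => simp [td8_U]
    | 1, _ =>
      rw [hx 0]
      simp [td8_U]
    | (j + 2), ih =>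
      have h1 := ih (j + 1) (by omega)
      have h2 := ih j (by omega)
      have h3 := hx (j + 1)
      rw [show j + 2 + 1 = j + 1 + 2 from rfl, h3, show j + 1 + 1 = j + 2 from rfl] 
      rw [show j + 1 + 1 = j + 2 from rfl] at h1
      rw [h1, h2]
      have e1 : td8_U s (j + 1 + 2) = s * td8_U s (j + 1 + 1) - td8_U s (j + 1) := rfl
      have e2 : td8_U s (j + 2) = s * td8_U s (j + 1) - td8_U s j := rfl
      rw [e1, show j + 1 + 1 = j + 2 from rfl, e2]
      module

/-- The key step: a sequence with small trace that returns to its start has proportional first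
terms. -/
lemma td8_return (y : ℚ_[p]) (hy : ‖y‖ ≤ (p : ℝ) ^ (-2 : ℤ)) (x : ℕ → V)
    (hx : ∀ j, x (j + 2) = (2 + y) • x (j + 1) - x j) {M : ℕ} (hM : 0 < M) (h : x M = x 0) :
    ∃ l : ℚ_[p], x 1 = l • x 0 := by
  obtain ⟨m, rfl⟩ : ∃ m, M = m + 1 := ⟨M - 1, by omega⟩
  have h1 := td8_seq (2 + y) x hx m
  rw [h] at h1
  have hne := td8_ne (p := p) (n := m + 1) (by omega) hy
  refine ⟨(td8_U (2 + y) (m + 1))⁻¹ * (1 + td8_U (2 + y) m), ?_⟩
  have h2 : td8_U (2 + y) (m + 1) • x 1 = (1 + td8_U (2 + y) m) • x 0 := by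
    rw [add_smul, one_smul]
    exact eq_add_of_sub_eq h1.symm
  rw [mul_smul, ← h2, smul_smul, inv_mul_cancel₀ hne, one_smul]

/-- TD8: products of two reflections of finite order. -/
theorem td_fo (b : LinearMap.BilinForm ℚ_[p] V) (hs : ∀ x y, b x y = b y x) (v w : V) (N : ℚ_[p])
    (hN : N ≠ 0) (hv : b v v = N) (hw : b w w = N) (hli : LinearIndependent ℚ_[p] ![v, w])
    (M : ℕ) (hM : 0 < M) (h : (refl b v * refl b w) ^ M = 1) :
    (‖(2 * b v w / N) ^ 2 - 1‖ < 1 → (2 * b v w / N) ^ 2 = 1) ∧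
      (‖2 * b v w / N‖ < 1 → b v w = 0) := by
  set c : ℚ_[p] := 2 * b v w / N with hc
  set g : Module.End ℚ_[p] V := refl b v * refl b w with hg
  have hgv : g v = (c ^ 2 - 1) • v - c • w := by
    rw [hg, Module.End.mul_apply]
    simp only [refl, LinearMap.sub_apply, LinearMap.id_apply, LinearMap.smul_apply,
      LinearMap.smulRight_apply, map_sub, map_smul, hv, hw, hs w v, hc, smul_smul, smul_sub,
      sub_smul, smul_eq_mul]
    match_scalars <;> field_simp <;> ring
  have hgw : g w = c • v - w := by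
    rw [hg, Module.End.mul_apply]
    simp only [refl, LinearMap.sub_apply, LinearMap.id_apply, LinearMap.smul_apply,
      LinearMap.smulRight_apply, map_sub, map_smul, hv, hw, hs w v, hc, smul_smul, smul_sub,
      sub_smul, smul_eq_mul]
    match_scalars <;> field_simp <;> ring
  have hli' : ∀ α β : ℚ_[p], α • v + β • w = 0 → α = 0 ∧ β = 0 :=
    LinearIndependent.pair_iff.1 hli
  set t : ℚ_[p] := c ^ 2 - 2 with ht
  -- the sequence of the powers
  have hrec0 : g (g v) = t • g v - v := by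
    rw [hgv, map_sub, map_smul, map_smul, hgv, hgw, ht]
    module
  have hrec : ∀ n, (g ^ (n + 2)) v = t • (g ^ (n + 1)) v - (g ^ n) v := by
    intro n
    have h1 : (g ^ (n + 2)) v = (g ^ n) (g (g v)) := by
      rw [pow_add, Module.End.mul_apply, sq, Module.End.mul_apply]
    have h2 : (g ^ (n + 1)) v = (g ^ n) (g v) := by
      rw [pow_succ, Module.End.mul_apply]
    rw [h1, h2, hrec0, map_sub, map_smul]
  have hret : ∀ a : ℕ, (g ^ (a * M)) v = v := by
    intro a
    rw [mul_comm, pow_mul, h, one_pow, Module.End.one_apply]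
  constructor
  · intro hsm
    have hc0 : c ≠ 0 := by
      intro h0
      rw [h0] at hsm
      norm_num at hsm
    have hc1 : ‖c ^ 2‖ ≤ 1 := by
      have h1 := Padic.nonarchimedean (c ^ 2 - 1) 1
      rw [sub_add_cancel, norm_one] at h1
      exact h1.trans (max_le hsm.le le_rfl)
    have hc4 : ‖c ^ 2 - 4‖ ≤ 1 := by
      have h1 := Padic.nonarchimedean (c ^ 2) (-4)
      rw [← sub_eq_add_neg] at h1
      refine h1.trans (max_le hc1 ?_)
      have := td8_int (p := p) (-4)
      push_cast at this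
      exact this
    have hy : ‖(c ^ 2 - 1) * (c ^ 2 - 1) * (c ^ 2 - 4)‖ ≤ (p : ℝ) ^ (-2 : ℤ) := by
      rw [norm_mul]
      calc ‖(c ^ 2 - 1) * (c ^ 2 - 1)‖ * ‖c ^ 2 - 4‖ ≤ ‖(c ^ 2 - 1) * (c ^ 2 - 1)‖ * 1 :=
            mul_le_mul_of_nonneg_left hc4 (norm_nonneg _)
        _ ≤ (p : ℝ) ^ (-2 : ℤ) := by rw [mul_one]; exact td8_sq hsm hsm
    obtain ⟨l, hl⟩ := td8_return _ hy (fun j => (g ^ (3 * j)) v) (by
      intro j
      have e0 := hrec (3 * j)
      have e1 := hrec (3 * j + 1)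
      have e2 := hrec (3 * j + 2)
      have e3 := hrec (3 * j + 3)
      have e4 := hrec (3 * j + 4)
      simp only [show 3 * j + 1 + 2 = 3 * j + 3 from rfl, show 3 * j + 1 + 1 = 3 * j + 2 from rfl,
        show 3 * j + 2 + 2 = 3 * j + 4 from rfl, show 3 * j + 2 + 1 = 3 * j + 3 from rfl,
        show 3 * j + 3 + 2 = 3 * j + 5 from rfl, show 3 * j + 3 + 1 = 3 * j + 4 from rfl,
        show 3 * j + 4 + 2 = 3 * j + 6 from rfl, show 3 * j + 4 + 1 = 3 * j + 5 from rfl]
        at e0 e1 e2 e3 e4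
      simp only [show 3 * (j + 2) = 3 * j + 6 from rfl, show 3 * (j + 1) = 3 * j + 3 from rfl]
      have k1 : t • (g ^ (3 * j + 1)) v = (g ^ (3 * j + 2)) v + (g ^ (3 * j)) v := by
        rw [e0]; module
      have k2 : (g ^ (3 * j + 1)) v = t • (g ^ (3 * j + 2)) v - (g ^ (3 * j + 3)) v := by
        rw [e1]; module
      have k3 : t • (g ^ (3 * j + 3)) v = t • (t • (g ^ (3 * j + 2)) v - (g ^ (3 * j + 1)) v) := by
        rw [e1]
      rw [e4, e3, e2]
      have k4 : (t ^ 2 - 1) • (g ^ (3 * j + 2)) v = t • (g ^ (3 * j + 3)) v + (g ^ (3 * j)) v := by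
        rw [k3, smul_sub, k1]
        module
      have k5 : t • ((t ^ 2 - 1) • (g ^ (3 * j + 2)) v) =
          t • (t • (g ^ (3 * j + 3)) v + (g ^ (3 * j)) v) := by rw [k4]
      have k6 : t • (g ^ (3 * j + 2)) v = (g ^ (3 * j + 3)) v + (g ^ (3 * j + 1)) v := by
        rw [e1]; module
      have hT : 2 + (c ^ 2 - 1) * (c ^ 2 - 1) * (c ^ 2 - 4) = t ^ 3 - 3 * t := by
        rw [ht]; ring
      rw [hT]
      have k7 : t • (t • (t • (g ^ (3 * j + 3)) v - (g ^ (3 * j + 2)) v) - (g ^ (3 * j + 3)) v) -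
          (t • (g ^ (3 * j + 3)) v - (g ^ (3 * j + 2)) v) =
          (t ^ 3 - 2 * t) • (g ^ (3 * j + 3)) v - (t ^ 2 - 1) • (g ^ (3 * j + 2)) v := by
        module
      rw [k7, k4]
      module) hM (by
        show (g ^ (3 * M)) v = (g ^ (3 * 0)) v
        rw [hret]
        simp)
    have hl' : (g ^ 3) v = l • v := by
      have := hl
      simpa using this
    have h3 : (g ^ 3) v = (t ^ 2 - 1) • g v - t • v := by
      have a1 := hrec 1
      have a0 := hrec 0
      simp only [Nat.zero_add, pow_zero, pow_one, Module.End.one_apply, Nat.reduceAdd] at a0 a1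
      rw [a1, a0]
      module
    rw [h3, hgv] at hl'
    have h4 : ((t ^ 2 - 1) * (c ^ 2 - 1) - t - l) • v + (-((t ^ 2 - 1) * c)) • w = 0 := by
      have : ((t ^ 2 - 1) * (c ^ 2 - 1) - t - l) • v + (-((t ^ 2 - 1) * c)) • w =
          (t ^ 2 - 1) • ((c ^ 2 - 1) • v - c • w) - t • v - l • v := by module
      rw [this, hl', sub_self]
    have h5 := (hli' _ _ h4).2
    have h6 : t ^ 2 - 1 = 0 := by
      have := neg_eq_zero.1 h5
      rcases mul_eq_zero.1 this with h7 | h7
      · exact h7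
      · exact absurd h7 hc0
    have h7 : (t - 1) * (t + 1) = 0 := by rw [← h6]; ring
    rcases mul_eq_zero.1 h7 with h8 | h8
    · exfalso
      have h9 : (c - 1) * (c + 1) = 2 := by
        have : c ^ 2 = 3 := by
          have : c ^ 2 - 2 - 1 = 0 := by rw [← ht]; exact h8
          linear_combination this
        linear_combination this
      have h10 : ‖(2 : ℚ_[p])‖ < 1 := by
        rw [← h9]
        have : (c - 1) * (c + 1) = c ^ 2 - 1 := by ring
        rw [this]
        exact hsm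
      have h11 : ‖c - 1‖ < 1 ∧ ‖c + 1‖ < 1 := by
        have h12 : ‖c - 1‖ * ‖c + 1‖ < 1 := by rw [← norm_mul, h9]; exact h10
        by_cases h13 : ‖c - 1‖ < 1
        · refine ⟨h13, ?_⟩
          have h14 := Padic.nonarchimedean (c - 1) 2
          have h15 : c - 1 + 2 = c + 1 := by ring
          rw [h15] at h14
          exact h14.trans_lt (max_lt h13 h10)
        · have h16 : ‖c + 1‖ < 1 := by
            push Not at h13
            by_contra h17
            push Not at h17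
            nlinarith
          refine ⟨?_, h16⟩
          have h14 := Padic.nonarchimedean (c + 1) (-2)
          have h15 : c + 1 + (-2) = c - 1 := by ring
          rw [h15, norm_neg] at h14
          exact h14.trans_lt (max_lt h16 h10)
      have h18 := td8_sq h11.1 h11.2
      rw [h9] at h18
      exact td8_two h18
    · rw [ht] at h8
      linear_combination h8
  · intro hsm
    have hc1 : ‖c ^ 2‖ ≤ 1 := by
      rw [norm_pow]
      exact pow_le_one₀ (norm_nonneg _) hsm.le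
    have hc4 : ‖c ^ 2 - 4‖ ≤ 1 := by
      have h1 := Padic.nonarchimedean (c ^ 2) (-4)
      rw [← sub_eq_add_neg] at h1
      refine h1.trans (max_le hc1 ?_)
      have := td8_int (p := p) (-4)
      push_cast at this
      exact this
    have hy : ‖c * c * (c ^ 2 - 4)‖ ≤ (p : ℝ) ^ (-2 : ℤ) := by
      rw [norm_mul]
      calc ‖c * c‖ * ‖c ^ 2 - 4‖ ≤ ‖c * c‖ * 1 :=
            mul_le_mul_of_nonneg_left hc4 (norm_nonneg _)
        _ ≤ (p : ℝ) ^ (-2 : ℤ) := by rw [mul_one]; exact td8_sq hsm hsm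
    obtain ⟨l, hl⟩ := td8_return _ hy (fun j => (g ^ (2 * j)) v) (by
      intro j
      have e0 := hrec (2 * j)
      have e1 := hrec (2 * j + 1)
      have e2 := hrec (2 * j + 2)
      simp only [show 2 * j + 1 + 2 = 2 * j + 3 from rfl, show 2 * j + 1 + 1 = 2 * j + 2 from rfl,
        show 2 * j + 2 + 2 = 2 * j + 4 from rfl, show 2 * j + 2 + 1 = 2 * j + 3 from rfl]
        at e0 e1 e2
      simp only [show 2 * (j + 2) = 2 * j + 4 from rfl, show 2 * (j + 1) = 2 * j + 2 from rfl]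
      have k1 : t • (g ^ (2 * j + 1)) v = (g ^ (2 * j + 2)) v + (g ^ (2 * j)) v := by
        rw [e0]; module
      have hT : 2 + c * c * (c ^ 2 - 4) = t ^ 2 - 2 := by
        rw [ht]; ring
      rw [e2, e1, hT, smul_sub, k1]
      module) hM (by
        show (g ^ (2 * M)) v = (g ^ (2 * 0)) v
        rw [hret]
        simp)
    have hl' : (g ^ 2) v = l • v := by
      have := hl
      simpa using this
    have h3 : (g ^ 2) v = t • g v - v := by
      have a0 := hrec 0
      simp only [Nat.zero_add, pow_zero, pow_one, Module.End.one_apply] at a0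
      exact a0
    rw [h3, hgv] at hl'
    have h4 : (t * (c ^ 2 - 1) - 1 - l) • v + (-(t * c)) • w = 0 := by
      have : (t * (c ^ 2 - 1) - 1 - l) • v + (-(t * c)) • w =
          t • ((c ^ 2 - 1) • v - c • w) - v - l • v := by module
      rw [this, hl', sub_self]
    have h5 := neg_eq_zero.1 (hli' _ _ h4).2
    rcases mul_eq_zero.1 h5 with h6 | h6
    · exfalso
      have h7 : c * c = 2 := by
        rw [ht] at h6
        linear_combination h6
      have h8 := td8_sq hsm hsm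
      rw [h7] at h8
      exact td8_two h8
    · have h2 : (2 : ℚ_[p]) ≠ 0 := by norm_num
      rw [hc, div_eq_zero_iff] at h6
      rcases h6 with h7 | h7
      · rcases mul_eq_zero.1 h7 with h8 | h8
        · exact absurd h8 h2
        · exact h8
      · exact absurd h7 hN

end padic

end Pool.Agent.TD
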