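import Pool.Agent.Lib_helper50.TD.TD8

/-!
# TD16: products of two reflections of finite order, vectors of different norms (`p = 2`)
-/

set_option autoImplicit false

namespace Pool.Agent.TD

variable {V : Type*} [AddCommGroup V] [Module ℚ_[2] V]

/-- TD16: products of two reflections of finite order, vectors of different norms. -/
theorem td_fo2 (b : LinearMap.BilinForm ℚ_[2] V) (hs : ∀ x y, b x y = b y x) (v w : V)
    (N M : ℚ_[2]) (hN : N ≠ 0) (hM : M ≠ 0) (hv : b v v = N) (hw : b w w = M)
    (hli : LinearIndependent ℚ_[2] ![v, w]) (m : ℕ) (hm : 0 < m)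
    (h : (refl b v * refl b w) ^ m = 1) (ht : ‖4 * b v w ^ 2 / (N * M)‖ < 1) :
    b v w = 0 ∨ 4 * b v w ^ 2 / (N * M) = 2 := by
  set t : ℚ_[2] := 4 * b v w ^ 2 / (N * M) with ht0
  set g : Module.End ℚ_[2] V := refl b v * refl b w with hg
  have hgv : g v = (t - 1) • v - (2 * b v w / M) • w := by
    rw [hg, Module.End.mul_apply]
    simp only [refl, LinearMap.sub_apply, LinearMap.id_apply, LinearMap.smul_apply,
      LinearMap.smulRight_apply, map_sub, map_smul, hv, hw, hs w v, ht0, smul_smul, smul_sub,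
      sub_smul]
    match_scalars
    · field_simp
      ring
    · field_simp
  have hgw : g w = (2 * b v w / N) • v - w := by
    rw [hg, Module.End.mul_apply]
    simp only [refl, LinearMap.sub_apply, LinearMap.id_apply, LinearMap.smul_apply,
      LinearMap.smulRight_apply, map_sub, map_smul, hv, hw, smul_smul, smul_sub]
    match_scalars
    · field_simp
      ring
    · field_simp
      ring
  have hrec0 : g (g v) = (t - 2) • g v - v := by
    have hdet : (2 * b v w / M) * (2 * b v w / N) = t := by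
      rw [ht0]
      field_simp
      ring
    have e1 : g (g v) = (t - 1) • ((t - 1) • v - (2 * b v w / M) • w) -
        (2 * b v w / M) • ((2 * b v w / N) • v - w) := by
      conv_lhs => rw [hgv, map_sub, map_smul, map_smul, hgv, hgw]
    have e2 : (2 * b v w / M) • ((2 * b v w / N) • v - w) =
        t • v - (2 * b v w / M) • w := by
      rw [smul_sub, smul_smul, hdet]
    rw [e1, e2, hgv]
    module
  have hrec : ∀ n, (g ^ (n + 2)) v = (t - 2) • (g ^ (n + 1)) v - (g ^ n) v := by
    intro n
    have h1 : (g ^ (n + 2)) v = (g ^ n) (g (g v)) := by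
      rw [pow_add, Module.End.mul_apply, sq, Module.End.mul_apply]
    have h2 : (g ^ (n + 1)) v = (g ^ n) (g v) := by
      rw [pow_succ, Module.End.mul_apply]
    rw [h1, h2, hrec0, map_sub, map_smul]
  have h4n : ‖(-4 : ℚ_[2])‖ < 1 := by
    have h1 : ‖((-4 : ℤ) : ℚ_[2])‖ < 1 := by
      rw [Padic.norm_intCast_lt_one_iff]
      norm_num
    have h2 : ((-4 : ℤ) : ℚ_[2]) = -4 := by norm_num
    rwa [h2] at h1
  have ht4 : ‖t - 4‖ < 1 := by
    have h1 := Padic.nonarchimedean t (-4)
    rw [← sub_eq_add_neg] at h1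
    exact h1.trans_lt (max_lt ht h4n)
  have hy : ‖t * (t - 4)‖ ≤ ((2 : ℕ) : ℝ) ^ (-2 : ℤ) := td8_sq ht ht4
  obtain ⟨l, hl⟩ := td8_return _ hy (fun j => (g ^ (2 * j)) v) (by
    intro j
    have e0 := hrec (2 * j)
    have e1 := hrec (2 * j + 1)
    have e2 := hrec (2 * j + 2)
    simp only [show 2 * j + 1 + 2 = 2 * j + 3 from rfl, show 2 * j + 1 + 1 = 2 * j + 2 from rfl,
      show 2 * j + 2 + 2 = 2 * j + 4 from rfl] at e0 e1 e2
    simp only [show 2 * (j + 2) = 2 * j + 4 from rfl, show 2 * (j + 1) = 2 * j + 2 from rfl]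
    have k1 : (t - 2) • (g ^ (2 * j + 1)) v = (g ^ (2 * j + 2)) v + (g ^ (2 * j)) v := by
      rw [e0]; module
    have hT : 2 + t * (t - 4) = (t - 2) ^ 2 - 2 := by ring
    rw [e2, e1, hT, smul_sub, k1]
    module) hm (by
      show (g ^ (2 * m)) v = (g ^ (2 * 0)) v
      rw [mul_comm, pow_mul, h, one_pow]
      simp)
  have hl' : (g ^ 2) v = l • v := by
    have := hl
    simpa using this
  have h3 : (g ^ 2) v = (t - 2) • g v - v := by
    have a0 := hrec 0
    simp only [Nat.zero_add, pow_zero, pow_one, Module.End.one_apply] at a0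
    exact a0
  rw [h3, hgv] at hl'
  have h4 : ((t - 2) * (t - 1) - 1 - l) • v + (-((t - 2) * (2 * b v w / M))) • w = 0 := by
    have : ((t - 2) * (t - 1) - 1 - l) • v + (-((t - 2) * (2 * b v w / M))) • w =
        (t - 2) • ((t - 1) • v - (2 * b v w / M) • w) - v - l • v := by module
    rw [this, hl', sub_self]
  have h5 := neg_eq_zero.1 ((LinearIndependent.pair_iff.1 hli) _ _ h4).2
  rcases mul_eq_zero.1 h5 with h6 | h6
  · right
    linear_combination h6
  · left
    have h2 : (2 : ℚ_[2]) ≠ 0 := by norm_num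
    rcases div_eq_zero_iff.1 h6 with h7 | h7
    · rcases mul_eq_zero.1 h7 with h8 | h8
      · exact absurd h8 h2
      · exact h8
    · exact absurd h7 hM

end Pool.Agent.TD
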